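import Pool.Agent.Rr71.Step

/-!
# A good row
-/

set_option autoImplicit false

namespace Pool.Agent.Rr71

open Finset

/-- The number of rows with the symbol `z` in the column `v`. -/
def lam {m n k : ℕ} (A : Fin m → Fin n → Fin k) (v : Fin n) (z : Fin k) : ℕ :=
  (univ.filter fun i => A i v = z).card

/-- The number of rows which contain the symbol `z`. -/
def occ {m n k : ℕ} (A : Fin m → Fin n → Fin k) (z : Fin k) : ℕ :=
  (univ.filter fun i => ∃ v, A i v = z).card

variable {m n k t : ℕ} {A : Fin m → Fin n → Fin k}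

/-- the number of symbols contained in at least `q` rows -/
theorem card_full_mul_le (A : Fin m → Fin n → Fin k) (q : ℕ) :
    (univ.filter fun z : Fin k => q ≤ occ A z).card * q ≤ m * n := by
  classical
  have h1 : ∑ z : Fin k, occ A z ≤ m * n := by
    have h2 : ∀ z : Fin k, occ A z = ∑ i : Fin m, if ∃ v, A i v = z then 1 else 0 := fun z => by
      rw [occ, card_filter]
    rw [sum_congr rfl fun z _ => h2 z, sum_comm]
    have h3 : ∀ i : Fin m, (∑ z : Fin k, if ∃ v, A i v = z then 1 else 0) ≤ n := by
      intro i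
      rw [← card_filter]
      have h4 : (univ.filter fun z => ∃ v, A i v = z) ⊆ univ.image (A i) := by
        intro z hz
        obtain ⟨v, hv⟩ := (mem_filter.1 hz).2
        exact mem_image.2 ⟨v, mem_univ _, hv⟩
      refine (card_le_card h4).trans (card_image_le.trans ?_)
      rw [card_univ, Fintype.card_fin]
    calc ∑ i : Fin m, (∑ z : Fin k, if ∃ v, A i v = z then 1 else 0) ≤ ∑ _i : Fin m, n :=
          sum_le_sum fun i _ => h3 i
      _ = m * n := by rw [sum_const, card_univ, Fintype.card_fin, smul_eq_mul]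
  refine le_trans ?_ h1
  calc (univ.filter fun z : Fin k => q ≤ occ A z).card * q
      = ∑ _z ∈ univ.filter (fun z : Fin k => q ≤ occ A z), q := by
        rw [sum_const, smul_eq_mul]
    _ ≤ ∑ z ∈ univ.filter (fun z : Fin k => q ≤ occ A z), occ A z :=
        sum_le_sum fun z hz => (mem_filter.1 hz).2
    _ ≤ ∑ z : Fin k, occ A z :=
        sum_le_sum_of_subset_of_nonneg (subset_univ _) fun _ _ _ => Nat.zero_le _

/-- the average over the rows -/
theorem exists_row (A : Fin m → Fin n → Fin k) (hm : 0 < m) (F : Finset (Fin k))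
    (hF : 2 * (n * F.card) ≤ m) :
    ∃ r, ∑ v ∈ univ.filter (fun v => A r v ∈ F), (1 : ℚ) / lam A v (A r v) ≤ 1 / 2 := by
  classical
  have hne : (univ : Finset (Fin m)).Nonempty := ⟨⟨0, hm⟩, mem_univ _⟩
  have key : ∑ r : Fin m, ∑ v ∈ univ.filter (fun v => A r v ∈ F), (1 : ℚ) / lam A v (A r v) ≤
      ∑ _r : Fin m, (1 : ℚ) / 2 := by
    have h1 : ∀ r : Fin m, ∑ v ∈ univ.filter (fun v => A r v ∈ F), (1 : ℚ) / lam A v (A r v) =
        ∑ v, if A r v ∈ F then (1 : ℚ) / lam A v (A r v) else 0 := fun r => sum_filter _ _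
    rw [sum_congr rfl fun r _ => h1 r, sum_comm]
    have h2 : ∀ v : Fin n, (∑ r, if A r v ∈ F then (1 : ℚ) / lam A v (A r v) else 0) ≤
        F.card := by
      intro v
      rw [← sum_filter]
      have h3 : ∀ r ∈ univ.filter (fun r => A r v ∈ F), A r v ∈ F := fun r hr =>
        (mem_filter.1 hr).2
      rw [← sum_fiberwise_of_maps_to (g := fun r => A r v) h3]
      have h4 : ∀ z ∈ F, ∑ r ∈ (univ.filter fun r => A r v ∈ F).filter (fun r => A r v = z),
          (1 : ℚ) / lam A v (A r v) ≤ 1 := by
        intro z _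
        have h5 : ∀ r ∈ (univ.filter fun r => A r v ∈ F).filter (fun r => A r v = z),
            (1 : ℚ) / lam A v (A r v) = 1 / lam A v z := fun r hr => by
          rw [(mem_filter.1 hr).2]
        rw [sum_congr rfl h5, sum_const, nsmul_eq_mul]
        have h6 : ((univ.filter fun r => A r v ∈ F).filter (fun r => A r v = z)).card ≤
            lam A v z := by
          refine card_le_card fun r hr => ?_
          exact mem_filter.2 ⟨mem_univ _, (mem_filter.1 hr).2⟩
        have h7 : (((univ.filter fun r => A r v ∈ F).filter (fun r => A r v = z)).card : ℚ) ≤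
            lam A v z := by exact_mod_cast h6
        rcases (Nat.zero_le (lam A v z)).eq_or_lt with h8 | h8
        · rw [← h8]
          simp
        · have h9 : (0 : ℚ) < lam A v z := by exact_mod_cast h8
          rw [mul_one_div, div_le_one h9]
          exact h7
      calc _ ≤ ∑ _z ∈ F, (1 : ℚ) := sum_le_sum h4
        _ = F.card := by rw [sum_const, nsmul_eq_mul, mul_one]
    calc _ ≤ ∑ _v : Fin n, (F.card : ℚ) := sum_le_sum fun v _ => h2 v
      _ = n * F.card := by rw [sum_const, card_univ, Fintype.card_fin, nsmul_eq_mul]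
      _ ≤ m * (1 / 2) := by
        have h3 : ((2 * (n * F.card) : ℕ) : ℚ) ≤ m := by exact_mod_cast hF
        push_cast at h3
        linarith
      _ = ∑ _r : Fin m, (1 : ℚ) / 2 := by
        rw [sum_const, card_univ, Fintype.card_fin, nsmul_eq_mul]
  obtain ⟨r, _, hr⟩ := exists_le_of_sum_le hne key
  exact ⟨r, hr⟩

/-- the number of members of the family which do not contain the symbol `A r v` -/
theorem missing {r : Fin m} {T₀ : Fin t → Fin n → Fin m} (hA : ∀ i, Function.Injective (A i))
    (hd : ∀ v, Function.Injective fun s => T₀ s v) (hT₀ : ∀ s v, T₀ s v ≠ r) {v : Fin n}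
    {q : ℕ} (hq : occ A (A r v) + q ≤ t) :
    q < (univ.filter fun s => ∀ u, A (T₀ s u) u ≠ A r v).card := by
  classical
  have h1 : (univ.filter fun s => ¬ ∀ u, A (T₀ s u) u ≠ A r v).card + 1 ≤ occ A (A r v) := by
    have h2 : ∀ s ∈ univ.filter (fun s => ¬ ∀ u, A (T₀ s u) u ≠ A r v),
        ∃ u, A (T₀ s u) u = A r v := by
      intro s hs
      have := (mem_filter.1 hs).2
      push Not at this
      exact this
    have : Nonempty (Fin n) := ⟨v⟩
    choose! g hg using h2
    have h3 : (univ.filter fun s => ¬ ∀ u, A (T₀ s u) u ≠ A r v).card ≤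
        ((univ.filter fun i => ∃ w, A i w = A r v).erase r).card := by
      refine card_le_card_of_injOn (fun s => T₀ s (g s)) ?_ ?_
      · intro s hs
        exact mem_coe.2 (mem_erase.2 ⟨hT₀ s _, mem_filter.2 ⟨mem_univ _, g s, hg s hs⟩⟩)
      · intro s hs s' hs' hss
        have h4 : T₀ s (g s) = T₀ s' (g s') := hss
        have h5 : A (T₀ s (g s)) (g s) = A (T₀ s (g s)) (g s') := by
          rw [hg s hs, h4, hg s' hs']
        have h6 : g s = g s' := hA _ h5
        exact hd (g s) (by
          change T₀ s (g s) = T₀ s' (g s)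
          rw [h4, h6])
    have h7 : r ∈ univ.filter fun i => ∃ w, A i w = A r v := mem_filter.2 ⟨mem_univ _, v, rfl⟩
    have h8 := card_erase_add_one h7
    unfold occ
    omega
  have h9 := card_filter_add_card_filter_not (s := (univ : Finset (Fin t)))
    (fun s => ∀ u, A (T₀ s u) u ≠ A r v)
  rw [card_univ, Fintype.card_fin] at h9
  omega

/-- the gain of one transversal -/
theorem gain {r : Fin m} {T₀ : Fin t → Fin n → Fin m} (hA : ∀ i, Function.Injective (A i))
    (hr : ∀ s, Function.Injective (T₀ s)) (hs : ∀ s, Function.Injective fun v => A (T₀ s v) v)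
    (hd : ∀ v, Function.Injective fun s => T₀ s v) (hT₀ : ∀ s v, T₀ s v ≠ r)
    {J₁ : Finset (Fin n)} (h1 : ∑ v ∈ J₁, (1 : ℚ) / lam A v (A r v) ≤ 1 / 2)
    (h2 : ∀ v, v ∉ J₁ → n * (n - 1) < (univ.filter fun s => ∀ u, A (T₀ s u) u ≠ A r v).card) :
    HasDT A (t + 1) := by
  classical
  have hlam : ∀ v, (0 : ℚ) < lam A v (A r v) := by
    intro v
    have h3 : 0 < lam A v (A r v) := card_pos.2 ⟨r, mem_filter.2 ⟨mem_univ _, rfl⟩⟩
    exact_mod_cast h3
  -- phase 1
  have p1 : ∀ s : Finset (Fin n), s ⊆ J₁ →
      ∃ (T' : Fin t → Fin n → Fin m) (S' : Fin n → Fin m) (U' : Finset (Fin t)),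
        State A r T₀ s T' S' U' ∧ ∀ u ∈ s, A (S' u) u = A r u := by
    intro s
    induction s using Finset.induction_on_max_value (fun v => lam A v (A r v)) with
    | empty =>
      intro _
      refine ⟨T₀, fun _ => r, ∅, ⟨hr, fun s v v' h => hs s h, fun v s s' h => hd v h, ?_, ?_,
        ?_, ?_, fun v _ s => hT₀ s v, fun s _ => rfl, le_refl _⟩, ?_⟩
      all_goals
        intro v hv
        exact absurd hv (notMem_empty v)
    | insert a s ha hmax ih =>
      intro hsub
      obtain ⟨T', S', U', hst, hsy⟩ := ih ((subset_insert a s).trans hsub)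
      refine State.step1 hA hT₀ hst hsy ha ?_
      have h3 : ∑ v ∈ insert a s, (1 : ℚ) / lam A v (A r v) ≤ 1 / 2 :=
        (sum_le_sum_of_subset_of_nonneg hsub fun v _ _ => by
          have := hlam v
          positivity).trans h1
      have h4 : ∑ _v ∈ insert a s, (1 : ℚ) / lam A a (A r a) ≤ 1 / 2 := by
        refine le_trans (sum_le_sum fun v hv => ?_) h3
        rcases mem_insert.1 hv with h5 | h5
        · rw [h5]
        · refine one_div_le_one_div_of_le (hlam v) ?_
          exact_mod_cast hmax v h5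
      rw [sum_const, card_insert_of_notMem ha, nsmul_eq_mul, mul_one_div, div_le_div_iff₀ (hlam a)
        two_pos] at h4
      have h5 : (((s.card + 1) * 2 : ℕ) : ℚ) ≤ ((1 * lam A a (A r a) : ℕ) : ℚ) := by
        push_cast at h4 ⊢
        exact h4
      have h6 : (s.card + 1) * 2 ≤ 1 * lam A a (A r a) := by exact_mod_cast h5
      have h7 : lam A a (A r a) = (univ.filter fun i => A i a = A r a).card := rfl
      omega
  -- phase 2
  have p2 : ∀ s : Finset (Fin n), Disjoint J₁ s →
      ∃ (T' : Fin t → Fin n → Fin m) (S' : Fin n → Fin m) (U' : Finset (Fin t)),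
        State A r T₀ (J₁ ∪ s) T' S' U' := by
    intro s
    induction s using Finset.induction_on with
    | empty =>
      intro _
      obtain ⟨T', S', U', hst, -⟩ := p1 J₁ (Subset.refl _)
      exact ⟨T', S', U', by rwa [union_empty]⟩
    | insert a s ha ih =>
      intro hdis
      rw [disjoint_insert_right] at hdis
      obtain ⟨T', S', U', hst⟩ := ih hdis.2
      have h3 : a ∉ J₁ ∪ s := by
        rw [mem_union, not_or]
        exact ⟨hdis.1, ha⟩
      rw [union_insert]
      refine State.step2 hT₀ hst h3 (lt_of_le_of_lt ?_ (h2 a hdis.1))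
      refine Nat.mul_le_mul_left n ?_
      have h4 : (J₁ ∪ s).card < (univ : Finset (Fin n)).card :=
        card_lt_card (ssubset_univ_iff.2 fun h5 => h3 (h5 ▸ mem_univ a))
      rw [card_univ, Fintype.card_fin] at h4
      omega
  obtain ⟨T', S', U', hst⟩ := p2 J₁ᶜ disjoint_compl_right
  rw [union_compl] at hst
  refine ⟨Fin.cons S' T', ?_, ?_, ?_⟩
  · intro s
    refine Fin.cases ?_ (fun s => ?_) s
    · rw [Fin.cons_zero]
      exact fun v v' h => hst.sr v (mem_univ _) v' (mem_univ _) h
    · rw [Fin.cons_succ]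
      exact hst.ri s
  · intro s
    refine Fin.cases ?_ (fun s => ?_) s
    · rw [Fin.cons_zero]
      exact fun v v' h => hst.ss v (mem_univ _) v' (mem_univ _) h
    · rw [Fin.cons_succ]
      exact fun v v' h => hst.si s v v' h
  · intro v s s'
    refine Fin.cases ?_ (fun s => ?_) s
    · refine Fin.cases (fun _ => rfl) (fun s' h => ?_) s'
      simp only [Fin.cons_zero, Fin.cons_succ] at h
      exact absurd h.symm (hst.sd v (mem_univ _) s')
    · refine Fin.cases (fun h => ?_) (fun s' h => ?_) s'
      · simp only [Fin.cons_zero, Fin.cons_succ] at h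
        exact absurd h (hst.sd v (mem_univ _) s)
      · simp only [Fin.cons_succ] at h
        rw [hst.di v s s' h]

end Pool.Agent.Rr71
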