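import Pool.Agent.Rr71.Count

/-!
# The row reduction and the reduction of Q1 to a finite problem
-/

set_option autoImplicit false

namespace Pool.Agent.Rr71

open Finset

/-- One more row. -/
theorem one_row {n k d m : ℕ} (hn : 1 ≤ n) (hm : 3 * n ^ 2 + d ≤ m + n + 1)
    (h : ∀ B : Fin m → Fin n → Fin k, (∀ i, Function.Injective (B i)) → HasDT B (m - d))
    (A : Fin (m + 1) → Fin n → Fin k) (hA : ∀ i, Function.Injective (A i)) :
    HasDT A (m + 1 - d) := by
  classical
  have e1 : n * (n - 1) + n = n ^ 2 := by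
    obtain ⟨q, rfl⟩ : ∃ q, n = q + 1 := ⟨n - 1, by omega⟩
    rw [Nat.add_sub_cancel]
    ring
  have e2 : 1 ≤ n ^ 2 := Nat.one_le_pow _ _ hn
  have hdm : d ≤ m := by
    have : n ≤ n ^ 2 := by rw [← e1]; omega
    omega
  set q := m - d + 1 - n * (n - 1) with hq
  have hq2 : 2 * n ^ 2 ≤ q := by omega
  set F : Finset (Fin k) := univ.filter fun z => q ≤ occ A z with hF
  have h1 := card_full_mul_le A q
  rw [← hF] at h1
  have hF2 : 2 * (n * F.card) ≤ m + 1 := by
    have h2 : F.card * (2 * n ^ 2) ≤ (m + 1) * n := (Nat.mul_le_mul_left _ hq2).trans h1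
    have h3 : (2 * (n * F.card)) * n ≤ (m + 1) * n := by
      calc (2 * (n * F.card)) * n = F.card * (2 * n ^ 2) := by ring
        _ ≤ _ := h2
    exact Nat.le_of_mul_le_mul_right h3 (by omega)
  obtain ⟨r, hr⟩ := exists_row A (Nat.succ_pos m) F hF2
  obtain ⟨T, hT1, hT2, hT3⟩ := h (fun i => A (r.succAbove i)) fun i => hA _
  have hinj : Function.Injective (r.succAbove) := Fin.succAbove_right_injective
  have hres := gain (r := r) (T₀ := fun s v => r.succAbove (T s v)) hA
    (fun s => hinj.comp (hT1 s)) (fun s => hT2 s)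
    (fun v s s' hss => hT3 v (hinj hss)) (fun s v => Fin.succAbove_ne r _) hr (fun v hv => ?_)
  · have h5 : m - d + 1 = m + 1 - d := by omega
    rwa [h5] at hres
  · refine missing hA (fun v s s' hss => hT3 v (hinj hss)) (fun s v => Fin.succAbove_ne r _) ?_
    have h6 : ¬ q ≤ occ A (A r v) := fun h7 =>
      hv (mem_filter.2 ⟨mem_univ _, mem_filter.2 ⟨mem_univ _, h7⟩⟩)
    omega

/-- The deficiency does not increase. -/
theorem more_rows {n k d m : ℕ} (hn : 1 ≤ n) (hm : 3 * n ^ 2 + d ≤ m + n + 1)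
    (h : ∀ B : Fin m → Fin n → Fin k, (∀ i, Function.Injective (B i)) → HasDT B (m - d))
    {m' : ℕ} (hmm : m ≤ m') (A : Fin m' → Fin n → Fin k) (hA : ∀ i, Function.Injective (A i)) :
    HasDT A (m' - d) := by
  induction m', hmm using Nat.le_induction with
  | base => exact h A hA
  | succ m' hmm ih => exact one_row hn (by omega) (fun B hB => ih B hB) A hA

/-- Renaming the symbols. -/
theorem relabel {m n k t : ℕ} (hm : 1 ≤ m) (hn : 1 ≤ n)
    (h : ∀ B : Fin m → Fin n → Fin (m * n), (∀ i, Function.Injective (B i)) → HasDT B t)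
    (A : Fin m → Fin n → Fin k) (hA : ∀ i, Function.Injective (A i)) : HasDT A t := by
  classical
  set S : Finset (Fin k) := univ.image fun p : Fin m × Fin n => A p.1 p.2 with hS
  have hcard : S.card ≤ m * n := by
    refine card_image_le.trans ?_
    rw [card_univ, Fintype.card_prod, Fintype.card_fin, Fintype.card_fin]
  have hmem : ∀ i j, A i j ∈ S := fun i j => mem_image.2 ⟨(i, j), mem_univ _, rfl⟩
  obtain ⟨e⟩ : Nonempty (S ↪ Fin (m * n)) := Function.Embedding.nonempty_of_card_le (by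
    rw [Fintype.card_coe, Fintype.card_fin]
    exact hcard)
  have hpos : 0 < m * n := Nat.mul_pos hm hn
  set f : Fin k → Fin (m * n) := fun z => if hz : z ∈ S then e ⟨z, hz⟩ else ⟨0, hpos⟩ with hf
  have hfi : ∀ z ∈ S, ∀ z' ∈ S, f z = f z' → z = z' := by
    intro z hz z' hz' hzz
    simp only [hf, dif_pos hz, dif_pos hz'] at hzz
    exact congrArg Subtype.val (e.injective hzz)
  obtain ⟨T, hT1, hT2, hT3⟩ := h (fun i j => f (A i j)) fun i j j' hjj =>
    hA i (hfi _ (hmem i j) _ (hmem i j') hjj)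
  refine ⟨T, hT1, fun s v v' hvv => hT2 s ?_, hT3⟩
  change f (A (T s v) v) = f (A (T s v') v')
  exact congrArg f hvv

/-- Q1 is a finite problem for every `n`. -/
theorem finite_problem {n : ℕ} (hn : 1 ≤ n)
    (h : ∀ m, 2 * n - 1 ≤ m → m ≤ 3 * n ^ 2 - 2 → ∀ A : Fin m → Fin n → Fin (m * n),
      (∀ i, Function.Injective (A i)) → HasDT A (m - (n - 1)))
    {m k : ℕ} (hm : 2 * n - 1 ≤ m) (A : Fin m → Fin n → Fin k)
    (hA : ∀ i, Function.Injective (A i)) : HasDT A (m - (n - 1)) := by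
  have h0 : ∀ m, 2 * n - 1 ≤ m → m ≤ 3 * n ^ 2 - 2 → ∀ A : Fin m → Fin n → Fin k,
      (∀ i, Function.Injective (A i)) → HasDT A (m - (n - 1)) := fun m h1 h2 A hA =>
    relabel (by omega) hn (h m h1 h2) A hA
  have e2 : n ≤ n ^ 2 := by
    calc n = n ^ 1 := (pow_one n).symm
      _ ≤ n ^ 2 := Nat.pow_le_pow_right hn (by omega)
  rcases le_total m (3 * n ^ 2 - 2) with h1 | h1
  · exact h0 m hm h1 A hA
  · exact more_rows hn (by omega) (h0 (3 * n ^ 2 - 2) (by omega) (le_refl _)) h1 A hA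

end Pool.Agent.Rr71
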