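import Mathlib

/-!
# Adding one row to a row-Latin rectangle: the state and the two steps

`T₀` is a family of disjoint transversals of the rectangle without the row `r`. A new transversal
`S` is built column by column (`J` is the set of the columns which are done), the cells of the row
`r` in the columns of `J` are given to transversals of the family (the indices in `U`).
-/

set_option autoImplicit false

namespace Pool.Agent.Rr71

open Finset

/-- `A` has `t` pairwise disjoint transversals (given by their rows in the columns). -/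
def HasDT {m n k : ℕ} (A : Fin m → Fin n → Fin k) (t : ℕ) : Prop :=
  ∃ T : Fin t → Fin n → Fin m, (∀ s, Function.Injective (T s)) ∧
    (∀ s, Function.Injective fun v => A (T s v) v) ∧ ∀ v, Function.Injective fun s => T s v

/-- The state of the construction. -/
structure State {m n k t : ℕ} (A : Fin m → Fin n → Fin k) (r : Fin m)
    (T₀ : Fin t → Fin n → Fin m) (J : Finset (Fin n)) (T : Fin t → Fin n → Fin m)
    (S : Fin n → Fin m) (U : Finset (Fin t)) : Prop where
  ri : ∀ s, Function.Injective (T s)
  si : ∀ s v v', A (T s v) v = A (T s v') v' → v = v'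
  di : ∀ v s s', T s v = T s' v → s = s'
  sr : ∀ v ∈ J, ∀ v' ∈ J, S v = S v' → v = v'
  ss : ∀ v ∈ J, ∀ v' ∈ J, A (S v) v = A (S v') v' → v = v'
  sd : ∀ v ∈ J, ∀ s, T s v ≠ S v
  nr : ∀ v ∈ J, S v ≠ r
  fr : ∀ v ∉ J, ∀ s, T s v ≠ r
  un : ∀ s ∉ U, T s = T₀ s
  cu : U.card ≤ J.card

variable {m n k t : ℕ} {A : Fin m → Fin n → Fin k} {r : Fin m} {T₀ T : Fin t → Fin n → Fin m}
  {J : Finset (Fin n)} {S : Fin n → Fin m} {U : Finset (Fin t)}

/-- The step in a column `v` in which the symbol `A r v` of the row `r` is common. -/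
theorem State.step1 (hA : ∀ i, Function.Injective (A i)) (hT₀ : ∀ s v, T₀ s v ≠ r)
    (h : State A r T₀ J T S U) (hsy : ∀ u ∈ J, A (S u) u = A r u) {v : Fin n} (hv : v ∉ J)
    (hl : 2 * J.card + 2 ≤ (univ.filter fun i => A i v = A r v).card) :
    ∃ (T' : Fin t → Fin n → Fin m) (S' : Fin n → Fin m) (U' : Finset (Fin t)),
      State A r T₀ (insert v J) T' S' U' ∧ ∀ u ∈ insert v J, A (S' u) u = A r u := by
  classical
  have hlt : (insert r (J.image S ∪ U.image fun s => T s v)).card <
      (univ.filter fun i => A i v = A r v).card := by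
    have h1 := card_insert_le r (J.image S ∪ U.image fun s => T s v)
    have h2 := card_union_le (J.image S) (U.image fun s => T s v)
    have h3 : (J.image S).card ≤ J.card := card_image_le
    have h4 : (U.image fun s => T s v).card ≤ U.card := card_image_le
    have h5 := h.cu
    omega
  obtain ⟨i, hi, hib⟩ := exists_mem_notMem_of_card_lt_card hlt
  have hiA : A i v = A r v := (mem_filter.1 hi).2
  have hir : i ≠ r := fun h1 => hib (h1 ▸ mem_insert_self _ _)
  have hiS : ∀ u ∈ J, S u ≠ i := fun u hu h1 =>
    hib (mem_insert_of_mem (mem_union_left _ (mem_image.2 ⟨u, hu, h1⟩)))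
  have hiU : ∀ s, T s v = i → s ∉ U := fun s h1 hs =>
    hib (mem_insert_of_mem (mem_union_right _ (mem_image.2 ⟨s, hs, h1⟩)))
  have hTr : ∀ s, T s v = i → ∀ u, T s u ≠ r := fun s h1 u => by
    rw [h.un s (hiU s h1)]
    exact hT₀ s u
  have hne : ∀ u ∈ J, u ≠ v := fun u hu h1 => hv (h1 ▸ hu)
  set T' : Fin t → Fin n → Fin m := fun s u => if T s v = i ∧ u = v then r else T s u with hT'
  have hT'v : ∀ s, T' s v = if T s v = i then r else T s v := by
    intro s
    simp only [hT', and_true]
  have hT'u : ∀ s u, u ≠ v → T' s u = T s u := fun s u hu => if_neg fun h1 => hu h1.2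
  have hsym : ∀ s u, A (T' s u) u = A (T s u) u := by
    intro s u
    by_cases h1 : T s v = i ∧ u = v
    · have h2 : T' s u = r := if_pos h1
      rw [h2, h1.2, h1.1, hiA]
    · have h2 : T' s u = T s u := if_neg h1
      rw [h2]
  refine ⟨T', fun u => if u = v then i else S u, U ∪ univ.filter (fun s => T s v = i),
    ⟨?_, ?_, ?_, ?_, ?_, ?_, ?_, ?_, ?_, ?_⟩, ?_⟩
  · intro s u u' huu
    by_cases h1 : T s v = i
    · by_cases h2 : u = v
      · by_cases h3 : u' = v
        · rw [h2, h3]
        · rw [h2, hT'v, if_pos h1, hT'u s u' h3] at huu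
          exact absurd huu.symm (hTr s h1 u')
      · by_cases h3 : u' = v
        · rw [h3, hT'v, if_pos h1, hT'u s u h2] at huu
          exact absurd huu (hTr s h1 u)
        · rw [hT'u s u h2, hT'u s u' h3] at huu
          exact h.ri s huu
    · have h4 : ∀ w, T' s w = T s w := fun w => if_neg fun h5 => h1 h5.1
      rw [h4, h4] at huu
      exact h.ri s huu
  · intro s u u' huu
    rw [hsym, hsym] at huu
    exact h.si s u u' huu
  · intro u s s' hss
    by_cases h1 : u = v
    · subst h1
      rw [hT'v, hT'v] at hss
      by_cases h2 : T s u = i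
      · by_cases h3 : T s' u = i
        · exact h.di u s s' (h2.trans h3.symm)
        · rw [if_pos h2, if_neg h3] at hss
          exact absurd hss.symm (h.fr u hv s')
      · by_cases h3 : T s' u = i
        · rw [if_neg h2, if_pos h3] at hss
          exact absurd hss (h.fr u hv s)
        · rw [if_neg h2, if_neg h3] at hss
          exact h.di u s s' hss
    · rw [hT'u s u h1, hT'u s' u h1] at hss
      exact h.di u s s' hss
  · intro u hu u' hu' huu
    by_cases h1 : u = v
    · by_cases h2 : u' = v
      · rw [h1, h2]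
      · rw [if_pos h1, if_neg h2] at huu
        exact absurd huu.symm (hiS u' (mem_of_mem_insert_of_ne hu' h2))
    · by_cases h2 : u' = v
      · rw [if_neg h1, if_pos h2] at huu
        exact absurd huu (hiS u (mem_of_mem_insert_of_ne hu h1))
      · rw [if_neg h1, if_neg h2] at huu
        exact h.sr u (mem_of_mem_insert_of_ne hu h1) u' (mem_of_mem_insert_of_ne hu' h2) huu
  · have key : ∀ u ∈ insert v J, A (if u = v then i else S u) u = A r u := by
      intro u hu
      by_cases h1 : u = v
      · rw [if_pos h1, h1, hiA]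
      · rw [if_neg h1]
        exact hsy u (mem_of_mem_insert_of_ne hu h1)
    intro u hu u' hu' huu
    rw [key u hu, key u' hu'] at huu
    exact hA r huu
  · intro u hu s huu
    by_cases h1 : u = v
    · subst h1
      rw [hT'v, if_pos rfl] at huu
      by_cases h2 : T s u = i
      · rw [if_pos h2] at huu
        exact hir huu.symm
      · rw [if_neg h2] at huu
        exact h2 huu
    · rw [hT'u s u h1, if_neg h1] at huu
      exact h.sd u (mem_of_mem_insert_of_ne hu h1) s huu
  · intro u hu
    by_cases h1 : u = v
    · simp only [if_pos h1]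
      exact hir
    · simp only [if_neg h1]
      exact h.nr u (mem_of_mem_insert_of_ne hu h1)
  · intro u hu s
    have h1 : u ≠ v := fun h2 => hu (h2 ▸ mem_insert_self _ _)
    rw [hT'u s u h1]
    exact h.fr u (fun h2 => hu (mem_insert_of_mem h2)) s
  · intro s hs
    rw [mem_union, mem_filter, not_or] at hs
    have h1 : ¬ T s v = i := fun h2 => hs.2 ⟨mem_univ _, h2⟩
    rw [← h.un s hs.1]
    funext u
    exact if_neg fun h2 => h1 h2.1
  · have h1 : (univ.filter fun s => T s v = i).card ≤ 1 := by
      rw [card_le_one]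
      intro a ha b hb
      exact h.di v a b ((mem_filter.1 ha).2.trans (mem_filter.1 hb).2.symm)
    have h2 := card_union_le U (univ.filter fun s => T s v = i)
    have h3 := h.cu
    rw [card_insert_of_notMem hv]
    omega
  · intro u hu
    by_cases h1 : u = v
    · simp only [if_pos h1]
      rw [h1, hiA]
    · simp only [if_neg h1]
      exact hsy u (mem_of_mem_insert_of_ne hu h1)

/-- The step in a column `v` for which the symbol `A r v` is missing in many transversals. -/
theorem State.step2 (hT₀ : ∀ s v, T₀ s v ≠ r) (h : State A r T₀ J T S U) {v : Fin n}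
    (hv : v ∉ J)
    (hl : n * J.card < (univ.filter fun s => ∀ u, A (T₀ s u) u ≠ A r v).card) :
    ∃ (T' : Fin t → Fin n → Fin m) (S' : Fin n → Fin m) (U' : Finset (Fin t)),
      State A r T₀ (insert v J) T' S' U' := by
  classical
  have hbad : (univ.filter fun s => ∃ w ∈ J, ∃ u, T s u = S w).card ≤ (n - 1) * J.card := by
    have h1 : (univ.filter fun s => ∃ w ∈ J, ∃ u, T s u = S w) ⊆
        J.biUnion fun w => (univ.erase w).biUnion fun u =>
          univ.filter fun s : Fin t => T s u = S w := by
      intro s hs
      obtain ⟨w, hw, u, hu⟩ := (mem_filter.1 hs).2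
      refine mem_biUnion.2 ⟨w, hw, mem_biUnion.2 ⟨u, mem_erase.2 ⟨fun h2 => ?_, mem_univ _⟩,
        mem_filter.2 ⟨mem_univ _, hu⟩⟩⟩
      subst h2
      exact h.sd u hw s hu
    refine (card_le_card h1).trans ?_
    rw [mul_comm]
    refine card_biUnion_le_card_mul _ _ _ fun w _ => ?_
    have h2 : ((univ.erase w).biUnion fun u =>
        univ.filter fun s : Fin t => T s u = S w).card ≤ (univ.erase w).card * 1 := by
      refine card_biUnion_le_card_mul _ _ _ fun u _ => ?_
      rw [card_le_one]
      intro a ha b hb
      exact h.di u a b ((mem_filter.1 ha).2.trans (mem_filter.1 hb).2.symm)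
    rw [mul_one, card_erase_of_mem (mem_univ _), card_univ, Fintype.card_fin] at h2
    exact h2
  have hn : 1 ≤ n := by
    have := v.isLt
    omega
  have hlt : (U ∪ univ.filter fun s => ∃ w ∈ J, ∃ u, T s u = S w).card <
      (univ.filter fun s => ∀ u, A (T₀ s u) u ≠ A r v).card := by
    have h1 := card_union_le U (univ.filter fun s => ∃ w ∈ J, ∃ u, T s u = S w)
    have h2 := h.cu
    have h3 : (n - 1) * J.card + J.card = n * J.card := by
      obtain ⟨q, rfl⟩ : ∃ q, n = q + 1 := ⟨n - 1, by omega⟩
      rw [Nat.add_sub_cancel]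
      ring
    omega
  obtain ⟨b, hb, hbb⟩ := exists_mem_notMem_of_card_lt_card hlt
  rw [mem_union, not_or] at hbb
  have hTb : T b = T₀ b := h.un b hbb.1
  have hmiss : ∀ u, A (T b u) u ≠ A r v := by
    intro u
    rw [hTb]
    exact (mem_filter.1 hb).2 u
  have hbr : ∀ u, T b u ≠ r := by
    intro u
    rw [hTb]
    exact hT₀ b u
  have hbS : ∀ w ∈ J, ∀ u, T b u ≠ S w := fun w hw u h1 =>
    hbb.2 (mem_filter.2 ⟨mem_univ _, w, hw, u, h1⟩)
  set P : Finset (Fin n) := univ.filter
    (Relation.ReflTransGen (fun u w => w ∈ J ∧ A (S w) w = A (T b u) u) v) with hP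
  have P1 : v ∈ P := mem_filter.2 ⟨mem_univ _, Relation.ReflTransGen.refl⟩
  have P2 : ∀ u ∈ P, ∀ w ∈ J, A (S w) w = A (T b u) u → w ∈ P := fun u hu w hw hh =>
    mem_filter.2 ⟨mem_univ _, (mem_filter.1 hu).2.tail ⟨hw, hh⟩⟩
  have P3 : ∀ w ∈ P, w ≠ v → w ∈ J ∧ ∃ u ∈ P, A (S w) w = A (T b u) u := by
    intro w hw hwv
    rcases (mem_filter.1 hw).2.cases_tail with h1 | ⟨u, h1, h2⟩
    · exact absurd h1 hwv
    · exact ⟨h2.1, u, mem_filter.2 ⟨mem_univ _, h1⟩, h2.2⟩
  have hJ : ∀ u ∈ insert v J, u ∉ P → u ∈ J := fun u hu hup =>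
    mem_of_mem_insert_of_ne hu fun h1 => hup (h1 ▸ P1)
  set φ : Fin n → Fin m := fun u => if u ∈ P then (if u = v then r else S u) else T b u with hφ
  have φv : φ v = r := by
    change (if v ∈ P then (if v = v then r else S v) else T b v) = r
    rw [if_pos P1, if_pos rfl]
  have φP : ∀ u ∈ P, u ≠ v → φ u = S u := fun u hu huv => by
    simp only [hφ, if_pos hu, if_neg huv]
  have φn : ∀ u, u ∉ P → φ u = T b u := fun u hu => if_neg hu
  set T' : Fin t → Fin n → Fin m := fun s => if s = b then φ else T s with hT'
  have T'b : T' b = φ := if_pos rfl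
  have T's : ∀ s, s ≠ b → T' s = T s := fun s hs => if_neg hs
  refine ⟨T', fun u => if u ∈ P then T b u else S u, insert b U,
    ⟨?_, ?_, ?_, ?_, ?_, ?_, ?_, ?_, ?_, ?_⟩⟩
  · intro s
    by_cases hs : s = b
    · subst hs
      rw [T'b]
      intro u u' huu
      by_cases h1 : u ∈ P
      · by_cases h2 : u' ∈ P
        · by_cases h3 : u = v
          · by_cases h4 : u' = v
            · rw [h3, h4]
            · rw [h3, φv, φP u' h2 h4] at huu
              exact absurd huu.symm (h.nr u' (P3 u' h2 h4).1)
          · by_cases h4 : u' = v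
            · rw [h4, φv, φP u h1 h3] at huu
              exact absurd huu (h.nr u (P3 u h1 h3).1)
            · rw [φP u h1 h3, φP u' h2 h4] at huu
              exact h.sr u (P3 u h1 h3).1 u' (P3 u' h2 h4).1 huu
        · rw [φn u' h2] at huu
          by_cases h3 : u = v
          · rw [h3, φv] at huu
            exact absurd huu.symm (hbr u')
          · rw [φP u h1 h3] at huu
            exact absurd huu.symm (hbS u (P3 u h1 h3).1 u')
      · rw [φn u h1] at huu
        by_cases h2 : u' ∈ P
        · by_cases h4 : u' = v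
          · rw [h4, φv] at huu
            exact absurd huu (hbr u)
          · rw [φP u' h2 h4] at huu
            exact absurd huu (hbS u' (P3 u' h2 h4).1 u)
        · rw [φn u' h2] at huu
          exact h.ri s huu
    · rw [T's s hs]
      exact h.ri s
  · intro s
    by_cases hs : s = b
    · subst hs
      rw [T'b]
      have q1 : ∀ u ∈ P, u ≠ v → ∃ w ∈ P, A (S u) u = A (T s w) w := fun u hu huv =>
        (P3 u hu huv).2
      intro u u' huu
      by_cases h1 : u ∈ P
      · by_cases h2 : u' ∈ P
        · by_cases h3 : u = v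
          · by_cases h4 : u' = v
            · rw [h3, h4]
            · obtain ⟨w, _, hw⟩ := q1 u' h2 h4
              rw [φP u' h2 h4, hw, h3, φv] at huu
              exact absurd huu.symm (hmiss w)
          · by_cases h4 : u' = v
            · obtain ⟨w, _, hw⟩ := q1 u h1 h3
              rw [φP u h1 h3, hw, h4, φv] at huu
              exact absurd huu (hmiss w)
            · rw [φP u h1 h3, φP u' h2 h4] at huu
              exact h.ss u (P3 u h1 h3).1 u' (P3 u' h2 h4).1 huu
        · rw [φn u' h2] at huu
          by_cases h3 : u = v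
          · rw [h3, φv] at huu
            exact absurd huu.symm (hmiss u')
          · obtain ⟨w, hwP, hw⟩ := q1 u h1 h3
            rw [φP u h1 h3, hw] at huu
            exact absurd (h.si s w u' huu ▸ hwP) h2
      · rw [φn u h1] at huu
        by_cases h2 : u' ∈ P
        · by_cases h4 : u' = v
          · rw [h4, φv] at huu
            exact absurd huu (hmiss u)
          · obtain ⟨w, hwP, hw⟩ := q1 u' h2 h4
            rw [φP u' h2 h4, hw] at huu
            exact absurd (h.si s w u huu.symm ▸ hwP) h1
        · rw [φn u' h2] at huu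
          exact h.si s u u' huu
    · rw [T's s hs]
      exact h.si s
  · have q : ∀ u s, s ≠ b → φ u ≠ T s u := by
      intro u s hs huu
      by_cases h1 : u ∈ P
      · by_cases h2 : u = v
        · rw [h2, φv] at huu
          exact h.fr v hv s huu.symm
        · rw [φP u h1 h2] at huu
          exact h.sd u (P3 u h1 h2).1 s huu.symm
      · rw [φn u h1] at huu
        exact hs (h.di u b s huu).symm
    intro u s s' hss
    by_cases h1 : s = b
    · by_cases h2 : s' = b
      · rw [h1, h2]
      · rw [h1, T'b, T's s' h2] at hss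
        exact absurd hss (q u s' h2)
    · by_cases h2 : s' = b
      · rw [h2, T'b, T's s h1] at hss
        exact absurd hss.symm (q u s h1)
      · rw [T's s h1, T's s' h2] at hss
        exact h.di u s s' hss
  · intro u hu u' hu' huu
    by_cases h1 : u ∈ P
    · by_cases h2 : u' ∈ P
      · rw [if_pos h1, if_pos h2] at huu
        exact h.ri b huu
      · rw [if_pos h1, if_neg h2] at huu
        exact absurd huu (hbS u' (hJ u' hu' h2) u)
    · by_cases h2 : u' ∈ P
      · rw [if_neg h1, if_pos h2] at huu
        exact absurd huu.symm (hbS u (hJ u hu h1) u')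
      · rw [if_neg h1, if_neg h2] at huu
        exact h.sr u (hJ u hu h1) u' (hJ u' hu' h2) huu
  · intro u hu u' hu' huu
    by_cases h1 : u ∈ P
    · by_cases h2 : u' ∈ P
      · rw [if_pos h1, if_pos h2] at huu
        exact h.si b u u' huu
      · rw [if_pos h1, if_neg h2] at huu
        exact absurd (P2 u h1 u' (hJ u' hu' h2) huu.symm) h2
    · by_cases h2 : u' ∈ P
      · rw [if_neg h1, if_pos h2] at huu
        exact absurd (P2 u' h2 u (hJ u hu h1) huu) h1
      · rw [if_neg h1, if_neg h2] at huu
        exact h.ss u (hJ u hu h1) u' (hJ u' hu' h2) huu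
  · intro u hu s huu
    by_cases h1 : u ∈ P
    · rw [if_pos h1] at huu
      by_cases h2 : s = b
      · rw [h2, T'b] at huu
        by_cases h3 : u = v
        · rw [h3, φv] at huu
          exact hbr v huu.symm
        · rw [φP u h1 h3] at huu
          exact h.sd u (P3 u h1 h3).1 b huu.symm
      · rw [T's s h2] at huu
        exact h2 (h.di u s b huu)
    · rw [if_neg h1] at huu
      have h3 := hJ u hu h1
      by_cases h2 : s = b
      · rw [h2, T'b, φn u h1] at huu
        exact h.sd u h3 b huu
      · rw [T's s h2] at huu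
        exact h.sd u h3 s huu
  · intro u hu
    by_cases h1 : u ∈ P
    · simp only [if_pos h1]
      exact hbr u
    · simp only [if_neg h1]
      exact h.nr u (hJ u hu h1)
  · intro u hu s
    have h1 : u ∉ P := by
      intro h2
      by_cases h3 : u = v
      · exact hu (h3 ▸ mem_insert_self _ _)
      · exact hu (mem_insert_of_mem (P3 u h2 h3).1)
    have h4 : u ∉ J := fun h2 => hu (mem_insert_of_mem h2)
    by_cases h2 : s = b
    · rw [h2, T'b, φn u h1]
      exact hbr u
    · rw [T's s h2]
      exact h.fr u h4 s
  · intro s hs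
    rw [mem_insert, not_or] at hs
    rw [T's s hs.1]
    exact h.un s hs.2
  · have h1 := card_insert_le b U
    have h2 := h.cu
    rw [card_insert_of_notMem hv]
    omega

end Pool.Agent.Rr71
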